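import Pool.Agent.helper10.OM.SpecG

/-!
# Row GUB: the smooth part, arbitrary sets of slopes (variant of UBD, helper41)
-/

set_option autoImplicit false

namespace Pool.Agent.OM

open Finset Real Pool.Agent.AT Pool.Agent.helper85.FC

theorem GUB_sp (M T Y : ℕ) (φ : ℕ → ℤ → ℝ) (hφ : Sp 0 Y φ) :
    Sp (M * T) Y (fun i x => φ i x - sm M T (φ i) x) := by
  intro i x hx
  simp only [XX, mem_Ico, not_and, not_lt] at hx
  have hz : ∀ z : ℤ, (z < 0 ∨ (Y : ℤ) ≤ z) → φ i z = 0 := by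
    intro z hz
    apply hφ i z
    simp only [XX, mem_Ico, not_and, not_lt]
    intro h
    push_cast at h ⊢
    rcases hz with hz | hz
    · omega
    · omega
  have h1 : φ i x = 0 := by
    apply hz
    by_cases h : -((M * T : ℕ) : ℤ) ≤ x
    · right
      have := hx h
      have h0 : (0 : ℤ) ≤ ((M * T : ℕ) : ℤ) := Int.natCast_nonneg _
      omega
    · left
      have h0 : (0 : ℤ) ≤ ((M * T : ℕ) : ℤ) := Int.natCast_nonneg _
      omega
  have h2 : sm M T (φ i) x = 0 := by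
    unfold sm
    rw [Finset.sum_eq_zero, zero_div]
    intro τ hτ
    apply hz
    have hτ' : τ < T := mem_range.mp hτ
    have h3 : (M : ℤ) * τ ≤ ((M * T : ℕ) : ℤ) := by
      push_cast
      exact mul_le_mul_of_nonneg_left (by exact_mod_cast hτ'.le) (Int.natCast_nonneg _)
    have h4 : (0 : ℤ) ≤ (M : ℤ) * τ := by positivity
    by_cases h : -((M * T : ℕ) : ℤ) ≤ x
    · right
      have := hx h
      omega
    · left
      omega
  simp only [h1, h2, sub_zero]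

theorem GUB_pt (h1 : GEO_stmt) (h2 : GSM_stmt) (h5 : SMO_stmt) (F : Finset ℕ) (W : Finset (ℕ × ℕ)) (H T D R Y : ℕ)
    (hW1 : ∀ r ∈ W, r.1 ≤ H ∧ r.2 ≤ H) (hW2 : ∀ r ∈ W, ∀ r' ∈ W, r ≠ r' → r.1 * r'.2 ≠ r'.1 * r.2)
    (hT : 1 ≤ T) (hD : 1 ≤ D) (ρ : ℝ) (hρ : 0 < ρ) (hDρ : (#W : ℝ) ≤ (2 * D * ρ) ^ 2)
    (hρ' : (2 * π * T * (MH H * (2 * H) * ρ)) ^ 2 * #W ≤ 1) (hR : MH H * T ≤ R)
    (φ : ℕ → ℤ → ℝ) (hφ : Sp 0 Y φ) (α β : ℝ) :
    PF F (XX R Y) (fun i x => φ i x - sm (MH H) T (φ i) x) α *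
      ∑ r ∈ W, FD D ((r.1 : ℝ) * α + r.2 * β) ≤ 8 * PF F (XX R Y) φ α := by
  have hPh0 : 0 ≤ PF F (XX R Y) φ α := Finset.sum_nonneg fun i _ => by positivity
  have hPu0 : 0 ≤ PF F (XX R Y) (fun i x => φ i x - sm (MH H) T (φ i) x) α :=
    Finset.sum_nonneg fun i _ => by positivity
  have hS0 : 0 ≤ ∑ r ∈ W, FD D ((r.1 : ℝ) * α + r.2 * β) :=
    Finset.sum_nonneg fun m _ => (h1 D _).1
  by_cases hN : Near (MH H * α) (MH H * (2 * H) * ρ)
  · have hr0 : 0 ≤ (MH H : ℝ) * (2 * H) * ρ := by positivity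
    have hPu : PF F (XX R Y) (fun i x => φ i x - sm (MH H) T (φ i) x) α ≤
        (2 * π * T * (MH H * (2 * H) * ρ)) ^ 2 * PF F (XX R Y) φ α := by
      unfold PF
      rw [Finset.mul_sum]
      apply Finset.sum_le_sum
      intro i _
      exact (h5 (MH H) T R Y hT hR (φ i) (hφ i) α).2 _ hr0 hN
    have hS : ∑ r ∈ W, FD D ((r.1 : ℝ) * α + r.2 * β) ≤ #W := by
      calc ∑ r ∈ W, FD D ((r.1 : ℝ) * α + r.2 * β) ≤ ∑ r ∈ W, (1 : ℝ) :=
            Finset.sum_le_sum fun m _ => (h1 D _).2.1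
        _ = #W := by simp
    calc _ ≤ ((2 * π * T * (MH H * (2 * H) * ρ)) ^ 2 * PF F (XX R Y) φ α) * #W := by
          apply mul_le_mul hPu hS hS0
          positivity
      _ = ((2 * π * T * (MH H * (2 * H) * ρ)) ^ 2 * #W) * PF F (XX R Y) φ α := by ring
      _ ≤ 1 * PF F (XX R Y) φ α := mul_le_mul_of_nonneg_right hρ' hPh0
      _ ≤ 8 * PF F (XX R Y) φ α := by linarith
  · have hS := h2 W H D ρ hW1 hW2 hD hρ hDρ α β hN
    have hPu : PF F (XX R Y) (fun i x => φ i x - sm (MH H) T (φ i) x) α ≤ 4 * PF F (XX R Y) φ α := by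
      unfold PF
      rw [Finset.mul_sum]
      apply Finset.sum_le_sum
      intro i _
      exact (h5 (MH H) T R Y hT hR (φ i) (hφ i) α).1
    calc _ ≤ (4 * PF F (XX R Y) φ α) * 2 := mul_le_mul hPu hS hS0 (by positivity)
      _ = 8 * PF F (XX R Y) φ α := by ring

theorem GUB (h1 : GEO_stmt) (h2 : GRR_stmt) (h3 : GSM_stmt) (h4 : GCS_stmt) (h5 : GUF_stmt) (h6 : SMO_stmt) (h7 : GPH_stmt) : GUB_stmt := by
  intro F H T hF hT
  obtain ⟨g1, g2, g3, -, -⟩ := h2 F H hF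
  have hW1 : ∀ r ∈ RR F, r.1 ≤ H ∧ r.2 ≤ H := fun r hr => ⟨(g1 r hr).2.1, (g1 r hr).2.2.2.1⟩
  set M : ℕ := MH H with hM
  set W : Finset (ℕ × ℕ) := RR F with hW
  have hT1 : (1 : ℝ) ≤ T := by exact_mod_cast hT
  have hM0 : (0 : ℝ) ≤ M := Nat.cast_nonneg _
  have hH0 : (0 : ℝ) ≤ H := Nat.cast_nonneg _
  have hw0 : (0 : ℝ) ≤ #W := Nat.cast_nonneg _
  set ρ : ℝ := 1 / (2 * π * T * (M + 1) * (2 * H + 1) * (#W + 1)) with hρd
  have hρ : 0 < ρ := by
    rw [hρd]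
    have := Real.pi_pos
    positivity
  obtain ⟨D₀, hD₀⟩ := exists_nat_ge (((#W : ℝ) + 1) / (2 * ρ))
  set D : ℕ := D₀ + 1 with hDd
  have hD : 1 ≤ D := by omega
  have hDρ : (#W : ℝ) + 1 ≤ 2 * D * ρ := by
    have h8 : ((#W : ℝ) + 1) / (2 * ρ) ≤ D := by
      refine hD₀.trans ?_
      rw [hDd]
      push_cast
      linarith
    rw [div_le_iff₀ (by positivity)] at h8
    linarith
  have hDρ2 : (#W : ℝ) ≤ (2 * D * ρ) ^ 2 := by nlinarith
  have hρ' : (2 * π * T * (M * (2 * H) * ρ)) ^ 2 * #W ≤ 1 := by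
    have e1 : 2 * π * T * (M * (2 * H) * ρ) = (M / (M + 1)) * ((2 * H) / (2 * H + 1)) * (1 / (#W + 1)) := by
      rw [hρd]
      have := Real.pi_pos
      field_simp
    have e2 : (M : ℝ) / (M + 1) ≤ 1 := by
      rw [div_le_one (by positivity)]
      linarith
    have e3 : (2 * (H : ℝ)) / (2 * H + 1) ≤ 1 := by
      rw [div_le_one (by positivity)]
      linarith
    have e4 : (M / (M + 1) : ℝ) * ((2 * H) / (2 * H + 1)) * (1 / (#W + 1)) ≤ 1 / (#W + 1) := by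
      have e5 : (M / (M + 1) : ℝ) * ((2 * H) / (2 * H + 1)) ≤ 1 :=
        mul_le_one₀ e2 (by positivity) e3
      calc _ ≤ 1 * (1 / ((#W : ℝ) + 1)) := mul_le_mul_of_nonneg_right e5 (by positivity)
        _ = _ := one_mul _
    rw [e1]
    calc _ ≤ (1 / ((#W : ℝ) + 1)) ^ 2 * #W :=
          mul_le_mul_of_nonneg_right (pow_le_pow_left₀ (by positivity) e4 2) hw0
      _ = #W / ((#W : ℝ) + 1) ^ 2 := by field_simp
      _ ≤ 1 := by
          rw [div_le_one (by positivity)]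
          nlinarith
  set R : ℕ := 3 * (M * T) + H * D with hRd
  refine ⟨R, 2 * R, by omega, ?_⟩
  intro Y hY K φ ψ hK hφ1 hψ1 hφ hψ
  have hMR : M * T ≤ R := by
    have := Nat.zero_le (H * D)
    omega
  have hcond : M * T + H * D ≤ R := by omega
  have hφu : Sp (M * T) Y (fun i x => φ i x - sm M T (φ i) x) := GUB_sp M T Y φ hφ
  have hψ' : Sp (M * T) Y ψ := by
    intro i x hx
    apply hψ i x
    intro hx'
    apply hx
    simp only [XX, mem_Ico] at hx' ⊢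
    have h0 : (0 : ℤ) ≤ ((M * T : ℕ) : ℤ) := Int.natCast_nonneg _
    push_cast at hx' h0 ⊢
    constructor
    · linarith [hx'.1]
    · linarith [hx'.2]
  set φu : ℕ → ℤ → ℝ := fun i x => φ i x - sm M T (φ i) x with hφud
  set Q : ℕ := Y + 2 * R + 1 with hQd
  have hQ1 : 1 ≤ Q := by omega
  have hQ0 : (0 : ℝ) < Q := by exact_mod_cast hQ1
  have hYQ : Y + 2 * R ≤ Q := by omega
  have hg0 : ∀ (r : ℕ × ℕ) (x y : ℤ), x ∉ XX (M * T) Y ∨ y ∉ XX (M * T) Y → gr F φu ψ r x y = 0 := by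
    intro r x y hxy
    unfold gr
    apply Finset.sum_eq_zero
    intro p _
    rcases hxy with hxy | hxy
    · rw [hφu p.1 x hxy, zero_mul]
    · rw [hψ' p.2 y hxy, mul_zero]
  set S : ℝ := ∑ r ∈ W, ∑ x ∈ XX R Y, ∑ y ∈ XX R Y, K r ((r.2 : ℤ) * x - (r.1 : ℤ) * y) *
    gr F φu ψ r x y with hS
  have hc := h4 W H D (M * T) R Y hW1 hD hcond K (gr F φu ψ) hK hg0
  rw [← hS] at hc
  set A : ℕ × ℕ → ℝ := fun r => ∑ x ∈ XX R Y, ∑ y ∈ XX R Y,
        ((∑ d ∈ range D, gr F φu ψ r (x + (r.1 : ℤ) * d) (y + (r.2 : ℤ) * d)) / D) ^ 2 with hA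
  have hc' : S ^ 2 ≤ #W * ((Y : ℝ) + 2 * R) ^ 2 * ∑ r ∈ W, A r := hc
  have hu : ∀ r ∈ W, (Q : ℝ) ^ 2 * A r ≤ ∑ k ∈ range Q, ∑ l ∈ range Q, PF F (XX R Y) φu ((k : ℝ) / Q) *
      PF F (XX R Y) ψ ((l : ℝ) / Q) * FD D ((r.1 : ℝ) * ((k : ℝ) / Q) + (r.2 : ℝ) * ((l : ℝ) / Q)) := by
    intro r hr
    have hr' := hW1 r hr
    have c1 : M * T + r.1 * D ≤ R := by
      have := Nat.mul_le_mul_right D hr'.1
      omega
    have c2 : M * T + r.2 * D ≤ R := by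
      have := Nat.mul_le_mul_right D hr'.2
      omega
    apply h5 F ((FF F).filter (fun p => rp p.1 p.2 = r)) r.1 r.2 D (M * T) R Y Q
    · intro p hp
      exact (mem_filter.1 (mem_filter.1 hp).1).1
    · intro p hp p' hp' hpp
      rw [mem_filter] at hp hp'
      exact g3 p hp.1 p' hp'.1 (hp.2.trans hp'.2.symm) hpp
    · exact hD
    · exact hQ1
    · exact hYQ
    · exact c1
    · exact c2
    · exact hφu
    · exact hψ'
  have hP0 : ∀ (f : ℕ → ℤ → ℝ) (α : ℝ), 0 ≤ PF F (XX R Y) f α := fun f α => Finset.sum_nonneg fun i _ => by positivity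
  have hsum : (Q : ℝ) ^ 2 * ∑ r ∈ W, A r ≤ 8 * (Q * (#F * Y)) * (Q * (#F * Y)) := by
    rw [Finset.mul_sum]
    calc ∑ r ∈ W, (Q : ℝ) ^ 2 * A r ≤ ∑ r ∈ W, ∑ k ∈ range Q, ∑ l ∈ range Q,
            PF F (XX R Y) φu ((k : ℝ) / Q) * PF F (XX R Y) ψ ((l : ℝ) / Q) *
              FD D ((r.1 : ℝ) * ((k : ℝ) / Q) + (r.2 : ℝ) * ((l : ℝ) / Q)) := Finset.sum_le_sum hu
      _ = ∑ k ∈ range Q, ∑ l ∈ range Q, PF F (XX R Y) ψ ((l : ℝ) / Q) * (PF F (XX R Y) φu ((k : ℝ) / Q) *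
            ∑ r ∈ W, FD D ((r.1 : ℝ) * ((k : ℝ) / Q) + (r.2 : ℝ) * ((l : ℝ) / Q))) := by
          rw [Finset.sum_comm]
          apply Finset.sum_congr rfl
          intro k _
          rw [Finset.sum_comm]
          apply Finset.sum_congr rfl
          intro l _
          rw [Finset.mul_sum, Finset.mul_sum]
          apply Finset.sum_congr rfl
          intro m _
          ring
      _ ≤ ∑ k ∈ range Q, ∑ l ∈ range Q, PF F (XX R Y) ψ ((l : ℝ) / Q) * (8 * PF F (XX R Y) φ ((k : ℝ) / Q)) := by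
          apply Finset.sum_le_sum
          intro k _
          apply Finset.sum_le_sum
          intro l _
          exact mul_le_mul_of_nonneg_left (GUB_pt h1 h3 h6 F W H T D R Y hW1 g2 hT hD ρ hρ hDρ2 hρ' hMR φ hφ _ _)
            (hP0 ψ _)
      _ = 8 * (∑ k ∈ range Q, PF F (XX R Y) φ ((k : ℝ) / Q)) * (∑ l ∈ range Q, PF F (XX R Y) ψ ((l : ℝ) / Q)) := by
          rw [mul_assoc, Finset.sum_mul_sum, Finset.mul_sum]
          apply Finset.sum_congr rfl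
          intro k _
          rw [Finset.mul_sum]
          apply Finset.sum_congr rfl
          intro l _
          ring
      _ ≤ 8 * (Q * (#F * Y)) * (Q * (#F * Y)) := by
          have e1 := h7 F R Y Q hQ1 hYQ φ hφ1 hφ
          have e2 := h7 F R Y Q hQ1 hYQ ψ hψ1 hψ
          apply mul_le_mul
          · linarith
          · exact e2
          · exact Finset.sum_nonneg fun l _ => hP0 ψ _
          · positivity
  have hsum2 : ∑ r ∈ W, A r ≤ 8 * (#F * Y) ^ 2 := by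
    have e : (Q : ℝ) ^ 2 * ∑ r ∈ W, A r ≤ (Q : ℝ) ^ 2 * (8 * (#F * Y) ^ 2) := by
      refine hsum.trans (le_of_eq ?_)
      ring
    exact le_of_mul_le_mul_left e (by positivity)
  have hYR : (Y : ℝ) + 2 * R ≤ 2 * Y := by
    have : ((2 * R : ℕ) : ℝ) ≤ Y := by exact_mod_cast hY
    push_cast at this
    linarith
  have hS2 : S ^ 2 ≤ 32 * (#W * (#F : ℝ) ^ 2) * (Y : ℝ) ^ 4 := by
    calc S ^ 2 ≤ #W * ((Y : ℝ) + 2 * R) ^ 2 * ∑ r ∈ W, A r := hc'
      _ ≤ #W * ((Y : ℝ) + 2 * R) ^ 2 * (8 * (#F * Y) ^ 2) := mul_le_mul_of_nonneg_left hsum2 (by positivity)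
      _ ≤ #W * (2 * Y) ^ 2 * (8 * (#F * Y) ^ 2) := by
          apply mul_le_mul_of_nonneg_right _ (by positivity)
          apply mul_le_mul_of_nonneg_left _ (by positivity)
          exact pow_le_pow_left₀ (by positivity) hYR 2
      _ = 32 * (#W * (#F : ℝ) ^ 2) * (Y : ℝ) ^ 4 := by ring
  apply abs_le_of_sq_le_sq _ (by positivity)
  calc S ^ 2 ≤ 32 * (#W * (#F : ℝ) ^ 2) * (Y : ℝ) ^ 4 := hS2
    _ ≤ 36 * (#W * (#F : ℝ) ^ 2) * (Y : ℝ) ^ 4 := by
        apply mul_le_mul_of_nonneg_right _ (by positivity)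
        apply mul_le_mul_of_nonneg_right _ (by positivity)
        norm_num
    _ = (6 * (√(#W : ℝ) * #F) * (Y : ℝ) ^ 2) ^ 2 := by
        have : (√(#W : ℝ)) ^ 2 = #W := Real.sq_sqrt (by positivity)
        calc 36 * (#W * (#F : ℝ) ^ 2) * (Y : ℝ) ^ 4 = 36 * ((√(#W : ℝ)) ^ 2 * (#F : ℝ) ^ 2) * (Y : ℝ) ^ 4 := by rw [this]
          _ = _ := by ring

end Pool.Agent.OM
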