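import Pool.Agent.helper10.OM.SpecH

/-!
# Row HGX: good quotients and good rationals
-/

set_option autoImplicit false

namespace Pool.Agent.OM

open Finset Real Pool.Agent.AT Pool.Agent.helper85.FC

theorem HGX_low (s s' a b : ℕ) (hs : 1 ≤ s) (hs' : 1 ≤ s') (ha : 1 ≤ a) (hb : 1 ≤ b) (hab : Nat.Coprime a b)
    (h : (s : ℚ) / s' = (a : ℚ) / b) : s / Nat.gcd s s' = a ∧ s' / Nat.gcd s s' = b := by
  have hg : 0 < Nat.gcd s s' := Nat.gcd_pos_of_pos_left _ (by omega)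
  have hs0 : (s' : ℚ) ≠ 0 := by
    have : s' ≠ 0 := by omega
    exact_mod_cast this
  have hb0 : (b : ℚ) ≠ 0 := by
    have : b ≠ 0 := by omega
    exact_mod_cast this
  rw [div_eq_div_iff hs0 hb0] at h
  have h1 : s * b = a * s' := by exact_mod_cast h
  obtain ⟨A, hA⟩ := Nat.gcd_dvd_left s s'
  obtain ⟨B, hB⟩ := Nat.gcd_dvd_right s s'
  have hco : Nat.Coprime (s / Nat.gcd s s') (s' / Nat.gcd s s') := Nat.coprime_div_gcd_div_gcd hg
  have hA' : s / Nat.gcd s s' = A := Nat.div_eq_of_eq_mul_right hg hA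
  have hB' : s' / Nat.gcd s s' = B := Nat.div_eq_of_eq_mul_right hg hB
  rw [hA', hB'] at hco
  have h2 : A * b = a * B := by
    have h3 : Nat.gcd s s' * (A * b) = Nat.gcd s s' * (a * B) := by
      calc Nat.gcd s s' * (A * b) = (Nat.gcd s s' * A) * b := by ring
        _ = s * b := by rw [← hA]
        _ = a * s' := h1
        _ = a * (Nat.gcd s s' * B) := by rw [← hB]
        _ = _ := by ring
    exact Nat.eq_of_mul_eq_mul_left hg h3
  have h4 : A ∣ a := hco.dvd_of_dvd_mul_right (Dvd.intro _ h2)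
  have h5 : a ∣ A := hab.dvd_of_dvd_mul_right (Dvd.intro _ h2.symm)
  have h6 : A = a := Nat.dvd_antisymm h4 h5
  rw [hA', hB']
  refine ⟨h6, ?_⟩
  rw [h6] at h2
  exact (Nat.eq_of_mul_eq_mul_left (by omega) h2).symm

theorem HGX (h1 : GSY_stmt) : HGX_stmt := by
  refine ⟨?_, ?_, ?_⟩
  · intro ε s s' hs hs'
    have hg : 0 < Nat.gcd s s' := Nat.gcd_pos_of_pos_left _ (by omega)
    constructor
    · intro h
      refine ⟨s / Nat.gcd s s', s' / Nat.gcd s s', ?_, ?_, ?_, ?_, h⟩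
      · exact Nat.div_pos (Nat.le_of_dvd (by omega) (Nat.gcd_dvd_left s s')) hg
      · exact Nat.div_pos (Nat.le_of_dvd (by omega) (Nat.gcd_dvd_right s s')) hg
      · exact Nat.coprime_div_gcd_div_gcd hg
      · have hg0 : ((Nat.gcd s s' : ℕ) : ℚ) ≠ 0 := by
          have : Nat.gcd s s' ≠ 0 := by omega
          exact_mod_cast this
        rw [Nat.cast_div (Nat.gcd_dvd_left s s') hg0, Nat.cast_div (Nat.gcd_dvd_right s s') hg0,
          div_div_div_cancel_right₀ hg0]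
    · rintro ⟨a, b, ha, hb, hab, hx, hG⟩
      obtain ⟨e1, e2⟩ := HGX_low s s' a b hs hs' ha hb hab hx
      unfold GQ
      rw [e1, e2]
      exact hG
  · rintro ε x ⟨a, b, ha, hb, hab, hx, hG⟩
    refine ⟨b, a, hb, ha, hab.symm, ?_, h1 ε a b hG⟩
    rw [hx, inv_div]
  · rintro ε ε' x hε ⟨a, b, ha, hb, hab, hx, q, r, hq, hG⟩
    refine ⟨a, b, ha, hb, hab, hx, q, r, hq, ?_⟩
    intro T hT
    obtain ⟨u, hu⟩ := hG T hT
    refine ⟨u, le_trans ?_ hu⟩
    exact mul_le_mul_of_nonneg_right (by linarith) (Nat.cast_nonneg _)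

end Pool.Agent.OM
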